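import Mathlib

set_option autoImplicit false

namespace Pool.Agent.H.MP_0c6837_al

open Filter Topology MeasureTheory

theorem sp_of {G X : Type} [Group G] [TopologicalSpace X] [FirstCountableTopology X]
    [MulAction G X] [ContinuousConstSMul G X] [MeasurableSpace X] [BorelSpace X] (x0 : X)
    (h : ∀ U ∈ 𝓝 x0, ∃ w : ℕ → G, ∀ x, ∀ᶠ j in atTop, w j • x ∈ U) (μ : ProbabilityMeasure X) :
    diracProba x0 ∈ closure (Set.range fun g : G =>
      μ.map (continuous_const_smul g).measurable.aemeasurable) := by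
  obtain ⟨U, hU, hb⟩ := (nhds_basis_opens' x0).exists_antitone_subbasis
  have k : ∀ n : ℕ, ∃ g : G, (μ : Measure X) ((fun x => g • x) ⁻¹' U n)ᶜ ≤ (n : ENNReal)⁻¹ := by
    intro n
    obtain ⟨w, hw⟩ := h (U n) (hU n).1
    have := tendsto_measure_of_tendsto_indicator_of_isFiniteMeasure atTop (μ : Measure X)
      (A := ∅) (As := fun j => ((fun x => w j • x) ⁻¹' U n)ᶜ)
      (fun j => ((hU n).2.preimage (continuous_const_smul _)).measurableSet.compl)
      (fun x => (hw x).mono fun j hj => by simpa using hj)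
    rw [measure_empty] at this
    obtain ⟨j, hj⟩ := (this.eventually (ge_mem_nhds (a := (n : ENNReal)⁻¹)
      (ENNReal.inv_pos.2 (ENNReal.natCast_ne_top n)))).exists
    exact ⟨w j, hj⟩
  choose g hg using k
  refine mem_closure_of_tendsto (b := atTop) (f := fun n => μ.map
    (continuous_const_smul (g n)).measurable.aemeasurable) ?_
    (Eventually.of_forall fun n => ⟨g n, rfl⟩)
  apply tendsto_of_forall_isOpen_le_liminf_nat'
  intro V hV
  by_cases hx : x0 ∈ V
  · have t : Tendsto (fun n : ℕ => 1 - (n : ENNReal)⁻¹) atTop (𝓝 1) := by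
      simpa using ENNReal.Tendsto.sub (tendsto_const_nhds (x := 1))
        ENNReal.tendsto_inv_nat_nhds_zero (Or.inl ENNReal.one_ne_top)
    refine prob_le_one.trans (t.liminf_eq.ge.trans (liminf_le_liminf ?_))
    filter_upwards [hb.eventually_subset (hV.mem_nhds hx)] with n hn
    rw [ProbabilityMeasure.toMeasure_map, Measure.map_apply (continuous_const_smul _).measurable
      hV.measurableSet, tsub_le_iff_right]
    refine le_trans ?_ (add_le_add (measure_mono (Set.preimage_mono hn)) (hg n))
    rw [measure_add_measure_compl ((hU n).2.preimage (continuous_const_smul _)).measurableSet]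
    simp
  · simp [diracProba, Measure.dirac_apply' _ hV.measurableSet, hx]

theorem abs_main {G Ω : Type} [Group G] [Countable G] (ρ : G →* Equiv.Perm Ω) (D : Ω → Bool)
    (o : Ω) (a : G) (ha : a ≠ 1) (h0 : D o = true) (h1 : ∀ u, D u = true → ρ a u = u)
    (hf : ∀ w : G, (∀ h g : G, D (ρ g (ρ w (ρ h o))) = D (ρ g (ρ h o))) → w = 1)
    (hs : ∀ K : Finset G, ∃ w : ℕ → G, ∀ u i j k, i < j → j < k →
      (∀ g ∈ K, D (ρ g (ρ (w i) u)) = D (ρ g o)) ∨ (∀ g ∈ K, D (ρ g (ρ (w j) u)) = D (ρ g o)) ∨
        (∀ g ∈ K, D (ρ g (ρ (w k) u)) = D (ρ g o))) :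
    ∃ (X : Type) (_ : TopologicalSpace X) (_ : CompactSpace X) (_ : T2Space X) (_ : Nonempty X)
      (_ : MulAction G X) (_ : ContinuousConstSMul G X) (_ : MeasurableSpace X) (_ : BorelSpace X),
      (∀ g : G, (∀ x : X, g • x = x) → g = 1) ∧
      (∀ x : X, Dense (MulAction.orbit G x)) ∧
      (∀ μ : ProbabilityMeasure X, ∃ x : X, diracProba x ∈ closure (Set.range fun g : G =>
        μ.map (f := fun y : X => g • y) (continuous_const_smul g).measurable.aemeasurable)) ∧
      ¬ Dense {x : X | MulAction.stabilizer G x = ⊥} := by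
  let pt : Ω → G → Bool := fun u g => D (ρ g u)
  let S : Set (G → Bool) := Set.range fun h : G => pt (ρ h o)
  let sh : G → (G → Bool) → G → Bool := fun h x g => x (g * h)
  have csh : ∀ h, Continuous (sh h) := fun h => continuous_pi fun g => continuous_apply _
  have hsh : ∀ h u, sh h (pt u) = pt (ρ h u) := fun h u => by
    funext g
    simp [sh, pt]
  have hS : ∀ h, ∀ x ∈ closure S, sh h x ∈ closure S := fun h x hx =>
    map_mem_closure (csh h) hx (by
      rintro _ ⟨g, rfl⟩
      exact ⟨h * g, by simp [hsh]⟩)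
  let X := closure S
  let : MulAction G X :=
    { smul := fun h x => ⟨sh h x.1, hS h _ x.2⟩
      one_smul := fun x => Subtype.ext (funext fun g => congrArg x.1 (mul_one g))
      mul_smul := fun h h' x => Subtype.ext (funext fun g => congrArg x.1 (mul_assoc g h h').symm) }
  have hv : ∀ (h : G) (x : X), (h • x).1 = sh h x.1 := fun _ _ => rfl
  have : ContinuousConstSMul G X :=
    ⟨fun h => ((csh h).comp continuous_subtype_val).subtype_mk _⟩
  have : CompactSpace X := isCompact_iff_compactSpace.1 isClosed_closure.isCompact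
  let : MeasurableSpace X := borel X
  have : BorelSpace X := ⟨rfl⟩
  let x0 : X := ⟨pt o, subset_closure ⟨1, by simp⟩⟩
  have key : ∀ U ∈ 𝓝 x0, ∃ w : ℕ → G, ∀ x : X, ∀ᶠ j in atTop, w j • x ∈ U := by
    intro U hU
    obtain ⟨V, hV, hVU⟩ := (mem_nhds_subtype _ _ _).1 hU
    rw [nhds_pi, Filter.mem_pi] at hV
    obtain ⟨I, hI, t, ht, hsub⟩ := hV
    obtain ⟨w, hw⟩ := hs hI.toFinset
    refine ⟨w, fun x => ?_⟩
    let C : ℕ → Set (G → Bool) := fun i => {y | ∀ g ∈ hI.toFinset, y (g * w i) = pt o g}
    have hC : ∀ i, IsClosed (C i) := fun i => by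
      simp only [C, Set.ofPred_forall]
      exact isClosed_iInter fun g => isClosed_iInter fun _ =>
        isClosed_eq (continuous_apply _) continuous_const
    have h3 : ∀ i j k, i < j → j < k → x.1 ∈ C i ∪ (C j ∪ C k) := fun i j k h1 h2 =>
      closure_minimal (by
        rintro _ ⟨h, rfl⟩
        simpa [C, pt] using hw (ρ h o) i j k h1 h2) ((hC i).union ((hC j).union (hC k))) x.2
    have h4 : ∀ᶠ j in atTop, x.1 ∈ C j := by
      by_contra hn
      rw [not_eventually, frequently_atTop] at hn
      obtain ⟨i, -, hi⟩ := hn 0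
      obtain ⟨j, hj, hj'⟩ := hn (i + 1)
      obtain ⟨k, hk, hk'⟩ := hn (j + 1)
      rcases h3 i j k hj hk with h | h | h <;> contradiction
    refine h4.mono fun j hj => hVU (hsub fun g hg => ?_)
    have : (w j • x).1 g = pt o g := hj g (hI.mem_toFinset.2 hg)
    rw [this]
    exact mem_of_mem_nhds (ht g)
  have d0 : Dense (MulAction.orbit G x0) := by
    intro y
    rw [closure_subtype]
    refine closure_mono ?_ y.2
    rintro _ ⟨h, rfl⟩
    exact ⟨h • x0, ⟨h, rfl⟩, hsh h o⟩
  refine ⟨X, inferInstance, inferInstance, inferInstance, ⟨x0⟩, inferInstance, inferInstance,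
    inferInstance, inferInstance, fun w hw => hf w fun h g => ?_, fun x => ?_,
    fun μ => ⟨x0, sp_of x0 key μ⟩, fun hd => ?_⟩
  · have := congrArg (fun x : X => x.1 g) (hw (h • x0))
    simpa [hv, hsh, x0, pt] using this
  · have hx : x0 ∈ closure (MulAction.orbit G x) := by
      rw [mem_closure_iff_nhds]
      intro U hU
      obtain ⟨w, hw⟩ := key U hU
      obtain ⟨j, hj⟩ := (hw x).exists
      exact ⟨_, hj, w j, rfl⟩
    refine (d0.mono ?_).of_closure
    rintro _ ⟨h, rfl⟩
    refine map_mem_closure (continuous_const_smul h) hx ?_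
    rintro _ ⟨g, rfl⟩
    exact ⟨h * g, mul_smul h g x⟩
  · have c1 : Continuous fun x : X => x.1 1 := (continuous_apply 1).comp continuous_subtype_val
    obtain ⟨x, hx, hx'⟩ := hd.inter_open_nonempty {x : X | x.1 1 = true}
      ((isOpen_discrete {true}).preimage c1) ⟨x0, by simpa [x0, pt] using h0⟩
    have : x.1 ∈ {y : G → Bool | y 1 = false} ∪ {y | sh a y = y} :=
      closure_minimal (by
        rintro _ ⟨h, rfl⟩
        cases e : D (ρ h o)
        · left; simpa [pt] using e
        · right; simp [hsh, h1 _ e]) ((isClosed_eq (continuous_apply _) continuous_const).union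
          (isClosed_eq (csh a) continuous_id)) x.2
    rcases this with h | h
    · exact absurd (hx.symm.trans h) (by simp)
    · have : a ∈ MulAction.stabilizer G x := Subtype.ext h
      rw [hx'] at this
      exact ha this

end Pool.Agent.H.MP_0c6837_al
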