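import Pool.Agent.H.MP_0c6837_al.A

set_option autoImplicit false

namespace Pool.Agent.H.MP_0c6837_al

abbrev St : Type := List (Fin 3 × ℤ)

def hd : St → Option (Fin 3)
  | [] => none
  | p :: _ => some p.1

def mk (s : Fin 3) (k : ℤ) (t : St) : St := if k = 0 then t else (s, k) :: t

def tl (s : Fin 3) : St → St
  | [] => []
  | p :: t => if p.1 = s then t else p :: t

def ex (s : Fin 3) : St → ℤ
  | [] => 0
  | p :: _ => if p.1 = s then p.2 else 0

def act (s : Fin 3) (k : ℤ) (l : St) : St := mk s (k + ex s l) (tl s l)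

def Nm : St → Prop
  | [] => True
  | p :: t => p.2 ≠ 0 ∧ hd t ≠ some p.1 ∧ Nm t

theorem tl_of {s : Fin 3} {l : St} (h : hd l ≠ some s) : tl s l = l := by
  cases l <;> simp_all [hd, tl]

theorem ex_of {s : Fin 3} {l : St} (h : hd l ≠ some s) : ex s l = 0 := by
  cases l <;> simp_all [hd, ex]

theorem act_of {s : Fin 3} {l : St} (h : hd l ≠ some s) (k : ℤ) : act s k l = mk s k l := by
  rw [act, tl_of h, ex_of h, add_zero]

theorem tl_mk {s : Fin 3} {l : St} (h : hd l ≠ some s) (k : ℤ) : tl s (mk s k l) = l := by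
  unfold mk
  split_ifs
  · exact tl_of h
  · simp [tl]

theorem ex_mk {s : Fin 3} {l : St} (h : hd l ≠ some s) (k : ℤ) : ex s (mk s k l) = k := by
  unfold mk
  split_ifs with e
  · rw [ex_of h, e]
  · simp [ex]

theorem Nm.tl' {l : St} (h : Nm l) (s : Fin 3) : Nm (tl s l) ∧ hd (tl s l) ≠ some s := by
  cases l with
  | nil => simp [tl, hd, Nm]
  | cons p t =>
    simp only [tl]
    split_ifs with e
    · exact ⟨h.2.2, e ▸ h.2.1⟩
    · exact ⟨h, by simpa [hd] using e⟩

theorem Nm.act' {l : St} (h : Nm l) (s : Fin 3) (k : ℤ) : Nm (act s k l) := by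
  unfold act mk
  split_ifs with e
  · exact (h.tl' s).1
  · exact ⟨e, (h.tl' s).2, (h.tl' s).1⟩

theorem Nm.tl_act {l : St} (h : Nm l) (s : Fin 3) (k : ℤ) : tl s (act s k l) = tl s l :=
  tl_mk (h.tl' s).2 _

theorem Nm.act_act {l : St} (h : Nm l) (s : Fin 3) (k k' : ℤ) :
    act s k (act s k' l) = act s (k + k') l := by
  rw [act, h.tl_act, act, ex_mk (h.tl' s).2, act, add_assoc]

theorem Nm.act_zero {l : St} (h : Nm l) (s : Fin 3) : act s 0 l = l := by
  cases l with
  | nil => simp [act, mk, ex, tl]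
  | cons p t =>
    by_cases e : p.1 = s
    · simp [act, mk, ex, tl, h.1, ← e]
    · simp [act, mk, ex, tl, e]

theorem tl_append {s : Fin 3} {l v : St} (h : l ≠ [] ∨ hd v ≠ some s) :
    tl s (l ++ v) = tl s l ++ v := by
  cases l with
  | nil => simpa [tl] using tl_of (by simpa using h)
  | cons p t => simp only [List.cons_append, tl]; split_ifs <;> rfl

theorem act_append {s : Fin 3} {l v : St} (h : l ≠ [] ∨ hd v ≠ some s) (k : ℤ) :
    act s k (l ++ v) = act s k l ++ v := by
  have : ex s (l ++ v) = ex s l := by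
    cases l with
    | nil => simpa [ex] using ex_of (by simpa using h)
    | cons p t => rfl
  unfold act mk
  rw [this, tl_append h]
  split_ifs <;> rfl

theorem tl_suffix (s : Fin 3) (l : St) : tl s l <:+ l := by
  cases l with
  | nil => exact List.suffix_refl _
  | cons p t =>
    simp only [tl]
    split_ifs
    · exact List.suffix_cons _ _
    · exact List.suffix_refl _

noncomputable def val : St → FreeGroup (Fin 3)
  | [] => 1
  | p :: t => FreeGroup.of p.1 ^ p.2 * val t

theorem val_append (l v : St) : val (l ++ v) = val l * val v := by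
  induction l with
  | nil => simp [val]
  | cons p t ih => simp [val, ih, mul_assoc]

theorem val_act (s : Fin 3) (k : ℤ) (l : St) : val (act s k l) = FreeGroup.of s ^ k * val l := by
  have h1 : ∀ k t, val (mk s k t) = FreeGroup.of s ^ k * val t := by
    intro k t
    unfold mk
    split_ifs with e <;> simp [val, e]
  have h2 : FreeGroup.of s ^ ex s l * val (tl s l) = val l := by
    cases l with
    | nil => simp [ex, tl]
    | cons p t => by_cases e : p.1 = s <;> simp [ex, tl, val, e]
  rw [act, h1, zpow_add, mul_assoc, h2]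

theorem val_surj (w : FreeGroup (Fin 3)) : ∀ l, Nm l → ∃ l', Nm l' ∧ val l' = w * val l := by
  induction w using FreeGroup.induction_on with
  | C1 => exact fun l h => ⟨l, h, by simp⟩
  | of s => exact fun l h => ⟨_, h.act' s 1, by simp [val_act]⟩
  | inv_of s _ => exact fun l h => ⟨_, h.act' s (-1), by simp [val_act]⟩
  | mul a b ha hb =>
    intro l h
    obtain ⟨l1, h1, e1⟩ := hb l h
    obtain ⟨l2, h2, e2⟩ := ha l1 h1
    exact ⟨l2, h2, by rw [e2, e1, mul_assoc]⟩

theorem nm_append {l : St} (h : Nm l) (h0 : l ≠ []) :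
    (∀ e : ℤ, e ≠ 0 → Nm (l ++ [(2, e)])) ∨ ∀ e : ℤ, e ≠ 0 → Nm (l ++ [(1, 1), (2, e)]) := by
  induction l with
  | nil => exact absurd rfl h0
  | cons p t ih =>
    cases t with
    | nil =>
      by_cases e : p.1 = 2
      · right; intro k hk; simp [Nm, hd, h.1, hk, e]
      · left; intro k hk; simp [Nm, hd, h.1, hk, Ne.symm e]
    | cons q t =>
      rcases ih h.2.2 (by simp) with k | k
      · exact Or.inl fun e he => ⟨h.1, h.2.1, k e he⟩
      · exact Or.inr fun e he => ⟨h.1, h.2.1, k e he⟩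

noncomputable def en : ℕ → St := Classical.choose (exists_surjective_nat St)

theorem en_surj : Function.Surjective en := Classical.choose_spec (exists_surjective_nat St)

noncomputable def LL (i : ℕ) : St := en i ++ [(2, (i : ℤ) + 1)]

def Exc (t : St) : Prop := ∃ i e, ((2, e) :: t) <:+ LL i

theorem exc_nil : Exc [] := ⟨0, _, List.suffix_append _ _⟩

theorem exc_uniq {j k : ℤ} {y : St} (h1 : Exc ((1, j) :: y)) (h2 : Exc ((1, k) :: y)) : j = k := by
  obtain ⟨i, e, h1⟩ := h1
  obtain ⟨i', e', h2⟩ := h2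
  have g : ∀ (i : ℕ) (e j : ℤ), ((2, e) :: (1, j) :: y) <:+ LL i →
      y.getLast? = some (2, (i : ℤ) + 1) := by
    rintro i e j ⟨z, hz⟩
    have := congrArg List.getLast? hz
    cases y with
    | nil => simp [LL] at this
    | cons q y => simpa [LL, List.getLast?_append, List.getLast?_cons] using this
  have : i = i' := by simpa using (g _ _ _ h1).symm.trans (g _ _ _ h2)
  subst this
  have := (List.suffix_of_suffix_length_le h1 h2 (by simp)).eq_of_length (by simp)
  simp only [List.cons.injEq, Prod.mk.injEq] at this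
  exact this.2.1.2

def del (e : ℤ) : ℤ := e - ((Nat.sqrt e.toNat : ℤ) ^ 2 + Nat.sqrt e.toNat)

theorem del_eq (r : ℕ) (d : ℤ) (h : |d| ≤ r) : del (r ^ 2 + r + d) = d := by
  rw [abs_le] at h
  have : Nat.sqrt (((r : ℤ) ^ 2 + r + d).toNat) = r := by
    symm
    rw [Nat.eq_sqrt']
    have : ((r : ℤ) + 1) ^ 2 = r ^ 2 + 2 * r + 1 := by ring
    have h0 : (0 : ℤ) ≤ (r : ℤ) ^ 2 := by positivity
    zify
    rw [Int.toNat_of_nonneg (by omega)]
    omega
  rw [del, this]
  ring

open Classical in
noncomputable def vp : St → St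
  | [] => []
  | p :: t => if p.1 = 2 ∧ ¬ Exc (vp t) then mk 2 (del p.2) [] else p :: vp t

theorem vp_suffix {i : ℕ} {l : St} (h : l <:+ LL i) : vp l = l := by
  induction l with
  | nil => rfl
  | cons p t ih =>
    have e := ih ((List.suffix_cons _ _).trans h)
    rw [vp, e, if_neg]
    rintro ⟨h1, h2⟩
    exact h2 ⟨i, p.2, by rw [← h1]; exact h⟩

open Classical in
noncomputable def dead (l : St) : Bool := decide (vp (tl 0 l) = [])

noncomputable def tw (s : Fin 3) (k : ℤ) (l : St) : St :=
  if s = 0 ∧ dead l = true then l else act s k l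

theorem Nm.tw' {l : St} (h : Nm l) (s : Fin 3) (k : ℤ) : Nm (tw s k l) := by
  unfold tw
  split_ifs
  · exact h
  · exact h.act' s k

theorem Nm.tw_tw {l : St} (h : Nm l) (s : Fin 3) (k k' : ℤ) :
    tw s k (tw s k' l) = tw s (k + k') l := by
  by_cases e : s = 0 ∧ dead l = true
  · simp only [tw, if_pos e]
  · have : ¬ (s = 0 ∧ dead (act s k' l) = true) := by
      rintro ⟨rfl, h2⟩
      rw [dead, h.tl_act] at h2
      exact e ⟨rfl, h2⟩
    simp only [tw, if_neg e, if_neg this, h.act_act]

theorem Nm.tw_zero {l : St} (h : Nm l) (s : Fin 3) : tw s 0 l = l := by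
  simp [tw, h.act_zero]

abbrev Om : Type := {l : St // Nm l}

noncomputable def ph (s : Fin 3) : Multiplicative ℤ →* Equiv.Perm Om where
  toFun k := ⟨fun l => ⟨tw s k.toAdd l.1, l.2.tw' _ _⟩, fun l => ⟨tw s (-k.toAdd) l.1, l.2.tw' _ _⟩,
    fun l => Subtype.ext (by simp [l.2.tw_tw, l.2.tw_zero]),
    fun l => Subtype.ext (by simp [l.2.tw_tw, l.2.tw_zero])⟩
  map_one' := Equiv.ext fun l => Subtype.ext (l.2.tw_zero s)
  map_mul' a b := Equiv.ext fun l => Subtype.ext (l.2.tw_tw s _ _).symm

noncomputable def rho : FreeGroup (Fin 3) →* Equiv.Perm Om :=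
  FreeGroup.lift fun s => ph s (Multiplicative.ofAdd 1)

theorem rho_pow (s : Fin 3) (k : ℤ) (l : Om) : (rho (FreeGroup.of s ^ k) l).1 = tw s k l.1 := by
  rw [map_zpow, rho, FreeGroup.lift_apply_of, ← map_zpow, ← ofAdd_zsmul, smul_eq_mul, mul_one]
  rfl

end Pool.Agent.H.MP_0c6837_al
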