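import Pool.Agent.H.MP_0c6837_al.B

set_option autoImplicit false

namespace Pool.Agent.H.MP_0c6837_al

def Rl (t : St) (r B : ℕ) (u y : St) : Prop :=
  ∃ (l : St) (d : ℤ), |d| ≤ B ∧ u = l ++ (2, (r : ℤ) ^ 2 + r + d) :: t ∧ y = l ++ mk 2 d []

theorem hd_mk {s : Fin 3} (h : s ≠ 2) (d : ℤ) : hd (mk 2 d []) ≠ some s := by
  unfold mk
  split_ifs <;> simp [hd, h.symm]

theorem vp_mk (d : ℤ) : vp (mk 2 d []) = mk 2 d [] := by
  unfold mk
  split_ifs <;> simp [vp, exc_nil]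

theorem vp_eq {t : St} (ht : ¬ Exc (vp t)) {r : ℕ} {d : ℤ} (hd : |d| ≤ r) (l : St) :
    vp (l ++ (2, (r : ℤ) ^ 2 + r + d) :: t) = vp (l ++ mk 2 d []) := by
  induction l with
  | nil => simp [vp, ht, del_eq r d hd, vp_mk]
  | cons p l ih => rw [List.cons_append, List.cons_append, vp, vp, ih]

theorem Rl.dead_eq {t u y : St} (ht : ¬ Exc (vp t)) {r B : ℕ} (hB : B ≤ r) (h : Rl t r B u y) :
    dead u = dead y := by
  obtain ⟨l, d, hd', rfl, rfl⟩ := h
  unfold dead
  rw [tl_append (Or.inr (by simp [hd])), tl_append (Or.inr (hd_mk (by decide) d)),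
    vp_eq ht (hd'.trans (by exact_mod_cast hB))]

theorem Rl.step {t u y : St} (ht : ¬ Exc (vp t)) {r B : ℕ} (hB : B + 1 ≤ r) (h : Rl t r B u y)
    (s : Fin 3) (k : ℤ) (hk : |k| ≤ 1) : Rl t r (B + 1) (tw s k u) (tw s k y) := by
  have e := h.dead_eq ht (by omega)
  obtain ⟨l, d, hd', rfl, rfl⟩ := h
  unfold tw
  rw [e]
  split_ifs
  · exact ⟨l, d, by push_cast; omega, rfl, rfl⟩
  by_cases c : l = [] ∧ s = 2
  · obtain ⟨rfl, rfl⟩ := c
    rw [abs_le] at hd' hk
    refine ⟨[], k + d, abs_le.2 (by push_cast; omega), ?_, ?_⟩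
    · have : (0 : ℤ) < (r : ℤ) ^ 2 := by
        have : 0 < r := by omega
        positivity
      simp only [List.nil_append, act, ex, tl, if_true, mk]
      rw [if_neg (by omega)]
      congr 2
      ring
    · rw [List.nil_append, act, ex_mk (by simp [hd]), tl_mk (by simp [hd]), List.nil_append]
  · have c' : l ≠ [] ∨ s ≠ 2 := by tauto
    exact ⟨act s k l, d, by push_cast; omega,
      act_append (c'.imp id fun h => by simpa [hd] using h.symm) k,
      act_append (c'.imp id fun h => hd_mk h d) k⟩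

theorem rl_rho (g : FreeGroup (Fin 3)) : ∃ n : ℕ, ∀ (t : St), ¬ Exc (vp t) → ∀ (r B : ℕ)
    (u y : Om), B + n ≤ r → Rl t r B u.1 y.1 → Rl t r (B + n) (rho g u).1 (rho g y).1 := by
  induction g using FreeGroup.induction_on with
  | C1 => exact ⟨0, fun t _ r B u y _ h => by simpa using h⟩
  | of s =>
    refine ⟨1, fun t ht r B u y hB h => ?_⟩
    rw [← zpow_one (FreeGroup.of s), rho_pow, rho_pow]
    exact h.step ht hB s 1 (by simp)
  | inv_of s _ =>
    refine ⟨1, fun t ht r B u y hB h => ?_⟩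
    rw [← zpow_neg_one (FreeGroup.of s), rho_pow, rho_pow]
    exact h.step ht hB s (-1) (by simp)
  | mul a b ha hb =>
    obtain ⟨n, hn⟩ := ha
    obtain ⟨m, hm⟩ := hb
    refine ⟨m + n, fun t ht r B u y hB h => ?_⟩
    rw [map_mul, ← add_assoc]
    exact hn t ht r _ _ _ (by omega) (hm t ht r B u y (by omega) h)

def rt : Om := ⟨[], trivial⟩

theorem sp_comb (K : Finset (FreeGroup (Fin 3))) : ∃ w : ℕ → FreeGroup (Fin 3), ∀ u i j k,
    i < j → j < k →
      (∀ g ∈ K, dead (rho g (rho (w i) u)).1 = dead (rho g rt).1) ∨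
      (∀ g ∈ K, dead (rho g (rho (w j) u)).1 = dead (rho g rt).1) ∨
      (∀ g ∈ K, dead (rho g (rho (w k) u)).1 = dead (rho g rt).1) := by
  choose n hn using rl_rho
  let r := K.sup n + 1
  refine ⟨fun j => FreeGroup.of 2 ^ ((r : ℤ) ^ 2 + r) * FreeGroup.of 1 ^ (j : ℤ), fun u => ?_⟩
  have key : ∀ j : ℕ, (j : ℤ) + ex 1 u.1 ≠ 0 → ¬ Exc ((1, j + ex 1 u.1) :: vp (tl 1 u.1)) →
      ∀ g ∈ K, dead (rho g (rho (FreeGroup.of 2 ^ ((r : ℤ) ^ 2 + r) * FreeGroup.of 1 ^ (j : ℤ))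
        u)).1 = dead (rho g rt).1 := by
    intro j h1 h2 g hg
    have ht : ¬ Exc (vp ((1, j + ex 1 u.1) :: tl 1 u.1)) := by simpa [vp] using h2
    have hr : 0 + n g ≤ r := by
      have := Finset.le_sup (f := n) hg
      omega
    refine (hn g _ ht r 0 _ rt hr ⟨[], 0, by simp, ?_, rfl⟩).dead_eq ht hr
    have : (r : ℤ) ^ 2 + r ≠ 0 := by positivity
    rw [map_mul, Equiv.Perm.mul_apply, rho_pow, rho_pow]
    have e : tw 1 j u.1 = (1, j + ex 1 u.1) :: tl 1 u.1 := by simp [tw, act, mk, h1]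
    rw [e, tw, if_neg (by simp), act_of (by simp [hd]), mk, if_neg this]
    simp
  intro i j k h1 h2
  by_contra hc
  simp only [not_or] at hc
  have b : ∀ j : ℕ, ¬ (∀ g ∈ K, dead (rho g (rho (FreeGroup.of 2 ^ ((r : ℤ) ^ 2 + r) *
      FreeGroup.of 1 ^ (j : ℤ)) u)).1 = dead (rho g rt).1) →
      (j : ℤ) + ex 1 u.1 = 0 ∨ Exc ((1, j + ex 1 u.1) :: vp (tl 1 u.1)) := by
    intro j h
    by_contra h'
    simp only [not_or] at h'
    exact h (key j h'.1 h'.2)
  rcases b i hc.1 with a1 | a1 <;> rcases b j hc.2.1 with a2 | a2 <;>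
    rcases b k hc.2.2 with a3 | a3 <;>
    first
    | omega
    | (have := exc_uniq a2 a3; omega)
    | (have := exc_uniq a1 a3; omega)
    | (have := exc_uniq a1 a2; omega)

theorem path {i : ℕ} (u : Om) (hu : u.1 ≠ []) (l : St) (h : Nm (l ++ u.1))
    (hs : l ++ u.1 <:+ LL i) : (rho (val l) u).1 = l ++ u.1 := by
  induction l with
  | nil => simp [val]
  | cons p l ih =>
    have hs' : l ++ u.1 <:+ LL i := (List.suffix_cons _ _).trans hs
    have h' : hd (l ++ u.1) ≠ some p.1 := h.2.1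
    rw [val, map_mul, Equiv.Perm.mul_apply, rho_pow, ih h.2.2 hs', tw, if_neg, act_of h', mk,
      if_neg h.1]
    · rfl
    · rintro ⟨e, h2⟩
      rw [dead, tl_of (e ▸ h'), vp_suffix hs'] at h2
      simp [hu] at h2

theorem claimA (l : St) (h0 : l ≠ []) (h : ∀ e : ℤ, e ≠ 0 → Nm (l ++ [(2, e)])) :
    ¬ ∀ h g, dead (rho g (rho (val l) (rho h rt))).1 = dead (rho g (rho h rt)).1 := by
  intro hc
  obtain ⟨i, hi⟩ := en_surj ((2, 1) :: l)
  have hL : LL i = (2, 1) :: (l ++ [(2, (i : ℤ) + 1)]) := by simp [LL, hi]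
  have h1 : (i : ℤ) + 1 ≠ 0 := by omega
  have hu : (rho (FreeGroup.of 2 ^ ((i : ℤ) + 1)) rt).1 = [(2, (i : ℤ) + 1)] := by
    rw [rho_pow]
    simp [tw, act, rt, mk, ex, tl, h1]
  have hv : l ++ [(2, (i : ℤ) + 1)] <:+ LL i := hL ▸ List.suffix_cons _ _
  have := hc (FreeGroup.of 2 ^ ((i : ℤ) + 1)) (FreeGroup.of 2 ^ (-((i : ℤ) + 1)))
  rw [rho_pow, rho_pow, path (i := i) _ (by rw [hu]; simp) l (hu ▸ h _ h1) (hu ▸ hv), hu] at this
  have e1 : dead (tw 2 (-((i : ℤ) + 1)) [(2, (i : ℤ) + 1)]) = true := by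
    simp [tw, act, mk, ex, tl, dead, vp]
  rw [e1, tw, if_neg (by simp), act, mk] at this
  have s1 := (tl_suffix 2 _).trans hv
  have s2 : Exc (tl 2 (l ++ [(2, (i : ℤ) + 1)])) := by
    cases l with
    | nil => exact absurd rfl h0
    | cons p l =>
      simp only [List.cons_append, tl]
      split_ifs with c
      · obtain ⟨a, b⟩ := p
        cases c
        exact ⟨i, b, hv⟩
      · exact ⟨i, 1, hL ▸ List.suffix_refl _⟩
  split_ifs at this
  · rw [dead, vp_suffix ((tl_suffix 0 _).trans s1), tl_append (Or.inl h0),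
      tl_append (Or.inr (by simp [hd]))] at this
    simp at this
  · rw [dead, tl_of (by simp [hd]), vp, vp_suffix s1] at this
    simp [s2] at this

theorem faithful (w : FreeGroup (Fin 3))
    (hw : ∀ h g, dead (rho g (rho w (rho h rt))).1 = dead (rho g (rho h rt)).1) : w = 1 := by
  obtain ⟨l, hl, e⟩ := val_surj w [] trivial
  rw [val, mul_one] at e
  subst e
  by_contra hn
  have h0 : l ≠ [] := by
    rintro rfl
    exact hn rfl
  rcases nm_append hl h0 with k | k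
  · exact claimA l h0 k hw
  · refine claimA (act 1 (-1) l ++ [(1, 1)]) (by simp) (fun e he => ?_) fun h g => ?_
    · have := (k e he).act' 1 (-1)
      rw [act_append (Or.inl h0)] at this
      simpa using this
    · have := hw (FreeGroup.of 1 * h) (g * (FreeGroup.of 1)⁻¹)
      simpa [val_append, val_act, val] using this

theorem dead_fix (u : Om) (h : dead u.1 = true) : rho (FreeGroup.of 0) u = u := by
  apply Subtype.ext
  rw [← zpow_one (FreeGroup.of 0), rho_pow, tw, if_pos ⟨rfl, h⟩]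

end Pool.Agent.H.MP_0c6837_al
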